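import Pool.Agent.UMG.StmtsB

/-! Squad UMG, block B, row CYR: a cycle of vertices with the holonomy `rp p` is the union of the bundles. -/

set_option autoImplicit false

namespace Pool.Agent.UMG.B.H97
open Finset Pool.Agent.UMG Pool.Agent.UMG.B

/-- the number of the half-edge -/
def fe (i a : ℕ) : Fin (i + 1) × Fin a ≃ Fin ((i + 1) * a) :=
  (Equiv.prodComm _ _).trans (finProdFinEquiv.trans (finCongr (Nat.mul_comm a (i + 1))))

theorem fe_val (i a : ℕ) (v : Fin (i + 1)) (b : Fin a) :
    (fe i a (v, b) : ℕ) = (v : ℕ) + (i + 1) * (b : ℕ) := by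
  simp [fe, finProdFinEquiv]

theorem aux (i : ℕ) (p : List ℕ) : ∃ f : Fin (i + 1) × PT p ≃ Hp (i + 1) p,
    (∀ x, nup (i + 1) p (f x) = x.1) ∧
      ∀ x, f (wr (finRotate (i + 1)) (lst i (rp p)) x) = gp (i + 1) p (f x) := by
  induction p with
  | nil =>
    refine ⟨⟨fun x => Empty.elim x.2, fun h => Empty.elim h, fun x => Empty.elim x.2,
      fun h => Empty.elim h⟩, fun x => Empty.elim x.2, fun x => Empty.elim x.2⟩
  | cons a p ih =>
    obtain ⟨f0, h1, h2⟩ := ih
    refine ⟨(Equiv.prodSumDistrib (Fin (i + 1)) (Fin a) (PT p)).trans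
      (Equiv.sumCongr (fe i a) f0), ?_, ?_⟩
    · rintro ⟨v, b | y⟩
      · show vl (i + 1) a (fe i a (v, b)) = v
        apply Fin.ext
        show (fe i a (v, b) : ℕ) % (i + 1) = v
        rw [fe_val, Nat.add_mul_mod_self_left, Nat.mod_eq_of_lt v.2]
      · exact h1 (v, y)
    · rintro ⟨v, b | y⟩
      · by_cases hv : v = Fin.last i
        · have e1 : wr (finRotate (i + 1)) (lst i (rp (a :: p))) (v, Sum.inl b) =
              (finRotate (i + 1) v, (Sum.inl (finRotate a b) : Fin a ⊕ PT p)) := by
            show (finRotate (i + 1) v, (lst i (rp (a :: p)) v) (Sum.inl b)) = _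
            rw [lst, if_pos hv]
            rfl
          rw [e1]
          show (Sum.inl (fe i a (finRotate (i + 1) v, finRotate a b)) :
            Fin ((i + 1) * a) ⊕ Hp (i + 1) p) = Sum.inl (finRotate ((i + 1) * a) (fe i a (v, b)))
          congr 1
          apply Fin.ext
          rw [fe_val, finRotate_val, finRotate_val, finRotate_val, fe_val, hv, Fin.val_last,
            Nat.mod_self, Nat.zero_add]
          rw [show i + (i + 1) * (b : ℕ) + 1 = (i + 1) * ((b : ℕ) + 1) by ring,
            Nat.mul_mod_mul_left]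
        · have e1 : wr (finRotate (i + 1)) (lst i (rp (a :: p))) (v, Sum.inl b) =
              (finRotate (i + 1) v, (Sum.inl b : Fin a ⊕ PT p)) := by
            show (finRotate (i + 1) v, (lst i (rp (a :: p)) v) (Sum.inl b)) = _
            rw [lst, if_neg hv]
            rfl
          rw [e1]
          show (Sum.inl (fe i a (finRotate (i + 1) v, b)) :
            Fin ((i + 1) * a) ⊕ Hp (i + 1) p) = Sum.inl (finRotate ((i + 1) * a) (fe i a (v, b)))
          congr 1
          apply Fin.ext
          have hvi : (v : ℕ) < i := by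
            have h3 := v.2
            have h4 : (v : ℕ) ≠ i := fun h => hv (Fin.ext h)
            omega
          have hb : (i + 1) * ((b : ℕ) + 1) ≤ (i + 1) * a := Nat.mul_le_mul_left _ b.2
          have hb' : (i + 1) * ((b : ℕ) + 1) = (i + 1) * (b : ℕ) + (i + 1) := by ring
          rw [fe_val, finRotate_val, finRotate_val, fe_val, Nat.mod_eq_of_lt (by omega),
            Nat.mod_eq_of_lt (by omega)]
          omega
      · have h3 := h2 (v, y)
        have e1 : wr (finRotate (i + 1)) (lst i (rp (a :: p))) (v, Sum.inr y) =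
            (finRotate (i + 1) v, (Sum.inr (lst i (rp p) v y) : Fin a ⊕ PT p)) := by
          show (finRotate (i + 1) v, (lst i (rp (a :: p)) v) (Sum.inr y)) = _
          unfold lst
          by_cases hv : v = Fin.last i
          · rw [if_pos hv, if_pos hv]
            rfl
          · rw [if_neg hv, if_neg hv]
            rfl
        rw [e1]
        show (Sum.inr (f0 (finRotate (i + 1) v, lst i (rp p) v y)) :
          Fin ((i + 1) * a) ⊕ Hp (i + 1) p) = Sum.inr (gp (i + 1) p (f0 (v, y)))
        rw [← h3]
        rfl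

theorem cyr : CyrStmt := by
  intro i p
  obtain ⟨f, h1, h2⟩ := aux i p
  exact ⟨Equiv.refl _, f, fun x => h1 x, h2⟩

end Pool.Agent.UMG.B.H97
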