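import Pool.Agent.UMG.CStmts

/-! Squad UMG, block C, row UAB: the bounds for the loop `sA`. -/

set_option autoImplicit false

namespace Pool.Agent.UMG.C.H97
open Finset Pool.Agent.UMG Pool.Agent.UMG.C

theorem uab (h1 : UesStmt) (h2 : UebStmt) (h3 : UacStmt) : UabStmt := by
  intro x d W u N t hu hd
  induction t with
  | zero =>
    refine ⟨⟨Nat.zero_le _, ?_⟩, ?_⟩
    · show u < W * Aint x (d.drop 0)
      rw [List.drop_zero]
      exact hu
    · show W * wb x N ^ (d.drop 0).sum ≤ W * wb x N ^ d.sum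
      rw [List.drop_zero]
  | succ t ih =>
    obtain ⟨s, hs⟩ : ∃ s, s = sA x d (0, W, u) t := ⟨_, rfl⟩
    have e0 : sA x d (0, W, u) (t + 1) = stA x d s := by
      rw [hs]
      rfl
    rw [e0]
    rw [← hs] at ih
    obtain ⟨hok, hb⟩ := ih
    by_cases hv : s.1 < d.length
    · obtain ⟨k, hk⟩ : ∃ k, k = d.getD s.1 0 := ⟨_, rfl⟩
      obtain ⟨i, hi⟩ : ∃ i, i = iA x d s := ⟨_, rfl⟩
      obtain ⟨a1, a2⟩ := h3 x d s hok hv
      have e1 : stA x d s = (s.1 + 1 + i, (qA x d s).2.1, (qA x d s).2.2) := by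
        unfold stA
        rw [if_pos hv, ← hi]
      have hlk : (i + 1) * k < N := by
        rw [hi, hk]
        exact lt_of_le_of_lt (mul_le_sum hv a1) hd
      obtain ⟨A, hA⟩ : ∃ A, A = Aint x (d.drop (s.1 + 1 + i)) := ⟨_, rfl⟩
      have e2 : qA x d s = unE x (i + 1) A k s.2.1 (uA x d s) := by
        unfold qA
        rw [← hi, ← hk, ← hA]
      rw [← hi] at a1 a2
      rw [← hk] at a1 a2
      rw [← hA] at a2
      have b1 := (h1 x (i + 1) A k s.2.1 (uA x d s) k a2 le_rfl).2
      obtain ⟨c1, c2, c3⟩ := h2 x (i + 1) A k s.2.1 (uA x d s) N k a2 hlk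
      rw [Nat.sub_self, Nat.le_zero] at c1
      rw [c1, pow_zero, mul_one] at c2
      rw [c1] at c3
      have e3 : Eint x (i + 1) 0 = 1 := by rw [Eint]
      rw [e3, one_mul] at c3
      have q1 : (qA x d s).2 = (sE x (i + 1) A (k, s.2.1, uA x d s) k).2 := by
        rw [e2, b1]
      rw [e1]
      have hlen : (d.drop (s.1 + 1)).length = d.length - (s.1 + 1) := List.length_drop
      have hcl : (d.drop (s.1 + 1)).count k ≤ (d.drop (s.1 + 1)).length := List.count_le_length
      refine ⟨⟨?_, ?_⟩, ?_⟩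
      · show s.1 + 1 + i ≤ d.length
        omega
      · show (qA x d s).2.2 < (qA x d s).2.1 * Aint x (d.drop (s.1 + 1 + i))
        rw [q1, ← hA]
        exact c3
      · show (qA x d s).2.1 * wb x N ^ (d.drop (s.1 + 1 + i)).sum ≤ W * wb x N ^ d.sum
        rw [q1]
        have hw : 0 < wb x N := wb_pos x N
        have hsum : k + (d.drop (s.1 + 1 + i)).sum ≤ (d.drop s.1).sum := by
          rw [drop_eq_cons hv, List.sum_cons, ← hk]
          have h5 : d.drop (s.1 + 1 + i) = (d.drop (s.1 + 1)).drop i := by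
            rw [List.drop_drop]
          rw [h5]
          have h6 : ((d.drop (s.1 + 1)).take i).sum + ((d.drop (s.1 + 1)).drop i).sum =
              (d.drop (s.1 + 1)).sum := by
            rw [← List.sum_append, List.take_append_drop]
          omega
        calc (sE x (i + 1) A (k, s.2.1, uA x d s) k).2.1 * wb x N ^ (d.drop (s.1 + 1 + i)).sum
            ≤ (s.2.1 * wb x N ^ k) * wb x N ^ (d.drop (s.1 + 1 + i)).sum :=
              Nat.mul_le_mul_right _ c2
          _ = s.2.1 * wb x N ^ (k + (d.drop (s.1 + 1 + i)).sum) := by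
              rw [pow_add, mul_assoc]
          _ ≤ s.2.1 * wb x N ^ (d.drop s.1).sum :=
              Nat.mul_le_mul_left _ (Nat.pow_le_pow_right hw hsum)
          _ ≤ W * wb x N ^ d.sum := hb
    · have e1 : stA x d s = s := by
        unfold stA
        rw [if_neg hv]
      rw [e1]
      exact ⟨hok, hb⟩

end Pool.Agent.UMG.C.H97
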